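import Pool.Graph.R_seed8.Y791.BF.TypesPow

/-!
# Package INT of helper39's project FT: compatible multiplicities which are small
-/

set_option autoImplicit false

open Polynomial

namespace Pool.Agent.Helper41.FT

open Pool.Agent.Y791.BF

/-- the multiplicity of a root in the algebraic closure -/
noncomputable def mu' {K : Type} [Field K] (p : K[X]) (ρ : AlgebraicClosure K) : ℕ :=
  (p.map (algebraMap K (AlgebraicClosure K))).rootMultiplicity ρ

section

variable {K : Type} [Field K]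

lemma map_ne {p : K[X]} (hp : p ≠ 0) : p.map (algebraMap K (AlgebraicClosure K)) ≠ 0 :=
  (Polynomial.map_ne_zero_iff (algebraMap K (AlgebraicClosure K)).injective).2 hp

lemma mu'_mul {p q : K[X]} (hp : p ≠ 0) (hq : q ≠ 0) (ρ : AlgebraicClosure K) :
    mu' (p * q) ρ = mu' p ρ + mu' q ρ := by
  rw [mu', Polynomial.map_mul, rootMultiplicity_mul (mul_ne_zero (map_ne hp) (map_ne hq))]
  rfl

lemma mu'_pow (p : K[X]) (n : ℕ) (ρ : AlgebraicClosure K) : mu' (p ^ n) ρ = n * mu' p ρ := by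
  rw [mu', Polynomial.map_pow, Types.rootMult_pow]
  rfl

lemma mu'_C (c : K) (ρ : AlgebraicClosure K) : mu' (C c) ρ = 0 := by
  rw [mu', Polynomial.map_C, rootMultiplicity_C]

/-- Functions of the multiplicities are multiplicities. -/
lemma exists_poly [CharZero K] (f : ℕ → ℕ) (hf : f 0 = 0) :
    ∀ (n : ℕ) (p : K[X]), p ≠ 0 → p.natDegree = n →
      ∃ g : K[X], g ≠ 0 ∧ ∀ ρ : AlgebraicClosure K, mu' g ρ = f (mu' p ρ) := by
  intro n
  induction n using Nat.strong_induction_on with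
  | _ n ih =>
    intro p hp hn
    by_cases h0 : n = 0
    · subst h0
      refine ⟨1, one_ne_zero, fun ρ => ?_⟩
      rw [eq_C_of_natDegree_eq_zero hn, mu'_C, hf, ← C_1, mu'_C]
    · have hpm := map_ne hp
      obtain ⟨ρ0, hρ⟩ : ∃ ρ, IsRoot (p.map (algebraMap K (AlgebraicClosure K))) ρ := by
        apply IsAlgClosed.exists_root
        rw [degree_map, degree_eq_natDegree hp, hn]
        exact_mod_cast h0
      have hint : IsIntegral K ρ0 := Algebra.IsIntegral.isIntegral ρ0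
      set q := minpoly K ρ0 with hq
      have hqirr : Irreducible q := minpoly.irreducible hint
      have hqm : q.Monic := minpoly.monic hint
      have hqdeg : 0 < q.natDegree := minpoly.natDegree_pos hint
      have hqp : q ∣ p := by
        apply minpoly.dvd
        rw [IsRoot.def, eval_map_algebraMap] at hρ
        exact hρ
      have hfin : FiniteMultiplicity q p := by
        apply finiteMultiplicity_of_degree_pos_of_monic _ hqm hp
        rw [degree_eq_natDegree hqm.ne_zero]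
        exact_mod_cast hqdeg
      obtain ⟨p', hp', hnd⟩ := hfin.exists_eq_pow_mul_and_not_dvd
      set m := multiplicity q p with hm
      have hp'0 : p' ≠ 0 := by
        rintro rfl
        rw [mul_zero] at hp'
        exact hp hp'
      have hm1 : m ≠ 0 := by
        intro h
        rw [h, pow_zero, one_mul] at hp'
        rw [← hp'] at hnd
        exact hnd hqp
      have hdeg' : p'.natDegree < n := by
        have h := congrArg natDegree hp'
        rw [natDegree_mul (pow_ne_zero _ hqm.ne_zero) hp'0, natDegree_pow, hn] at h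
        have : 0 < m * q.natDegree := Nat.mul_pos (Nat.pos_of_ne_zero hm1) hqdeg
        omega
      obtain ⟨g, hg, hg'⟩ := ih _ hdeg' p' hp'0 rfl
      refine ⟨q ^ f m * g, mul_ne_zero (pow_ne_zero _ hqm.ne_zero) hg, fun ρ => ?_⟩
      have hq1 : mu' q ρ ≤ 1 := rootMultiplicity_le_one_of_separable (hqirr.separable).map ρ
      have h1 : mu' p ρ = m * mu' q ρ + mu' p' ρ := by
        conv_lhs => rw [hp']
        rw [mu'_mul (pow_ne_zero _ hqm.ne_zero) hp'0, mu'_pow]
      rw [mu'_mul (pow_ne_zero _ hqm.ne_zero) hg, mu'_pow, hg', h1]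
      rcases Nat.eq_zero_or_pos (mu' q ρ) with h2 | h2
      · rw [h2, mul_zero, mul_zero, zero_add, zero_add]
      · have h3 : mu' q ρ = 1 := by omega
        have h4 : mu' p' ρ = 0 := by
          apply rootMultiplicity_eq_zero
          intro h
          have h5 : IsRoot (q.map (algebraMap K (AlgebraicClosure K))) ρ :=
            (rootMultiplicity_pos (map_ne hqm.ne_zero)).1 h2
          have hcop : IsCoprime q p' := (hqirr.coprime_iff_not_dvd).2 hnd
          obtain ⟨a, b, hab⟩ := hcop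
          have h6 := congrArg (fun s : K[X] => aeval ρ s) hab
          rw [IsRoot.def, eval_map_algebraMap] at h h5
          simp only [map_add, map_mul, h, h5, mul_zero, add_zero, map_one] at h6
          exact zero_ne_one h6
        rw [h3, h4, hf]
        simp

/-- Package INT. -/
theorem int0 [CharZero K] (A : ℕ → K[X]) (B0 : ℕ) (hA : ∀ N : ℕ, 0 < N → A N ≠ 0)
    (hcomp : ∀ N M : ℕ, 0 < N → 0 < M → ∀ ρ : AlgebraicClosure K,
      (N : ℤ) ∣ (mu' (A (N * M)) ρ : ℤ) - mu' (A N) ρ)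
    (hsmall : ∀ N : ℕ, 0 < N → ∀ ρ : AlgebraicClosure K,
      ∃ n : ℤ, |n| ≤ B0 ∧ (N : ℤ) ∣ (mu' (A N) ρ : ℤ) - n) :
    ∃ G1 G2 : K[X], G1 ≠ 0 ∧ G2 ≠ 0 ∧ ∀ N : ℕ, 0 < N → ∃ (d : K) (h : K[X]), d ≠ 0 ∧ h ≠ 0 ∧
      A N * G2 * G1 ^ (N - 1) = C d * h ^ N := by
  classical
  have hN1 : 0 < 2 * B0 + 1 := by omega
  -- uniqueness of the small representative
  have huniq : ∀ n n' : ℤ, |n| ≤ B0 → |n'| ≤ B0 → ((2 * B0 + 1 : ℕ) : ℤ) ∣ n - n' → n = n' := by
    intro n n' h h' hd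
    rw [abs_le] at h h'
    have := Int.eq_zero_of_abs_lt_dvd hd (by
      rw [abs_lt]
      push_cast
      constructor <;> linarith [h.1, h.2, h'.1, h'.2])
    linarith
  let ν : ℕ → ℤ := fun m => if h : ∃ n : ℤ, |n| ≤ B0 ∧ ((2 * B0 + 1 : ℕ) : ℤ) ∣ (m : ℤ) - n then
    h.choose else 0
  have hν : ∀ (m : ℕ) (n : ℤ), |n| ≤ B0 → ((2 * B0 + 1 : ℕ) : ℤ) ∣ (m : ℤ) - n → ν m = n := by
    intro m n h h'
    have hex : ∃ n : ℤ, |n| ≤ B0 ∧ ((2 * B0 + 1 : ℕ) : ℤ) ∣ (m : ℤ) - n := ⟨n, h, h'⟩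
    have h1 : ν m = hex.choose := dif_pos hex
    obtain ⟨h2, h3⟩ := hex.choose_spec
    rw [h1]
    refine huniq _ _ h2 h ?_
    have := dvd_sub h' h3
    rwa [show ((m : ℤ) - n) - ((m : ℤ) - hex.choose) = hex.choose - n by ring] at this
  have hν0 : ν 0 = 0 := hν 0 0 (by simp) (by simp)
  obtain ⟨G1, hG1, hG1'⟩ := exists_poly (K := K) (fun m => (ν m).toNat) (by simp [hν0]) _
    (A (2 * B0 + 1)) (hA _ hN1) rfl
  obtain ⟨G2, hG2, hG2'⟩ := exists_poly (K := K) (fun m => (-ν m).toNat) (by simp [hν0]) _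
    (A (2 * B0 + 1)) (hA _ hN1) rfl
  refine ⟨G1, G2, hG1, hG2, fun N hN => ?_⟩
  have hne : A N * G2 * G1 ^ (N - 1) ≠ 0 :=
    mul_ne_zero (mul_ne_zero (hA N hN) hG2) (pow_ne_zero _ hG1)
  obtain ⟨d, h, hd, hh⟩ := Types.pow_const (l := N) _ _ hne rfl (by
    intro ρ
    change N ∣ mu' _ ρ
    rw [mu'_mul (mul_ne_zero (hA N hN) hG2) (pow_ne_zero _ hG1), mu'_mul (hA N hN) hG2, mu'_pow,
      hG1', hG2']
    set m := mu' (A (2 * B0 + 1)) ρ with hm
    -- the small representative modulo `N`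
    have h1 : (N : ℤ) ∣ (mu' (A N) ρ : ℤ) - ν m := by
      obtain ⟨n', h2, h3⟩ := hsmall (N * (2 * B0 + 1)) (Nat.mul_pos hN hN1) ρ
      have h4 := hcomp N (2 * B0 + 1) hN hN1 ρ
      have h5 := hcomp (2 * B0 + 1) N hN1 hN ρ
      rw [mul_comm (2 * B0 + 1) N] at h5
      have h6 : ν m = n' := by
        refine hν m n' h2 ?_
        have h7 : ((2 * B0 + 1 : ℕ) : ℤ) ∣ (mu' (A (N * (2 * B0 + 1))) ρ : ℤ) - n' :=
          (Dvd.intro_left (N : ℤ) (by push_cast; ring)).trans h3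
        have := dvd_sub h7 h5
        rwa [show (mu' (A (N * (2 * B0 + 1))) ρ : ℤ) - n' -
          ((mu' (A (N * (2 * B0 + 1))) ρ : ℤ) - mu' (A (2 * B0 + 1)) ρ) =
          (mu' (A (2 * B0 + 1)) ρ : ℤ) - n' by ring] at this
      rw [h6]
      have h7 : (N : ℤ) ∣ (mu' (A (N * (2 * B0 + 1))) ρ : ℤ) - n' :=
        (Dvd.intro (((2 * B0 + 1 : ℕ) : ℤ)) (by push_cast; ring)).trans h3
      have := dvd_sub h7 h4
      rwa [show (mu' (A (N * (2 * B0 + 1))) ρ : ℤ) - n' -
          ((mu' (A (N * (2 * B0 + 1))) ρ : ℤ) - mu' (A N) ρ) =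
          (mu' (A N) ρ : ℤ) - n' by ring] at this
    have h2 : (N : ℤ) ∣ ((mu' (A N) ρ + (-ν m).toNat + (N - 1) * (ν m).toNat : ℕ) : ℤ) := by
      have h3 : ((mu' (A N) ρ + (-ν m).toNat + (N - 1) * (ν m).toNat : ℕ) : ℤ) =
          ((mu' (A N) ρ : ℤ) - ν m) + N * ((ν m).toNat : ℤ) := by
        have h4 : ((ν m).toNat : ℤ) - ((-ν m).toNat : ℤ) = ν m := Int.toNat_sub_toNat_neg _
        have h5 : ((N - 1 : ℕ) : ℤ) = N - 1 := by
          rw [Nat.cast_sub hN, Nat.cast_one]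
        rw [Nat.cast_add, Nat.cast_add, Nat.cast_mul, h5]
        linear_combination (-1 : ℤ) * h4
      rw [h3]
      exact dvd_add h1 (Dvd.intro _ rfl)
    exact_mod_cast h2)
  refine ⟨d, h, hd, ?_, hh⟩
  rintro rfl
  rw [zero_pow hN.ne', mul_zero] at hh
  exact hne hh

end

end Pool.Agent.Helper41.FT
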