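import Pool.Agent.Helper39.FT.Defs
import Pool.Agent.Helper41.FT.Int0

/-!
# Package INT of helper39's project FT
-/

set_option autoImplicit false

open Polynomial

namespace Pool.Agent.Helper41.FT

open Pool.Agent.Helper39.FT

theorem main : S_INT := by
  intro K _ _ A B0 hA h1 h2
  exact int0 A B0 hA h1 h2

end Pool.Agent.Helper41.FT
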